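import Pool.Agent.H50_PropA.Schauder

/-!
# A conditional Schauder basis with Property (A)

Over the real and over the complex field there is a Banach space with a semi-normalized Schauder
basis which has Property (A) (equivalently, is `1`-almost-greedy) and is not unconditional.
-/

namespace Pool.Agent.Results.MP_e9a5f2_an.ConditionalPropertyA

open Finset Filter Topology Pool.Agent.H50.PA

/-- A semi-normalized Markushevich basis of the normed space `X`, indexed by `ℕ`: vectors `vec n`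
with dense span, continuous biorthogonal functionals `coord n` which separate the points of `X`,
and a common bound for all the norms. -/
structure MBasis (𝕜 X : Type) [RCLike 𝕜] [NormedAddCommGroup X] [NormedSpace 𝕜 X] where
  /-- the basis vectors -/
  vec : ℕ → X
  /-- the biorthogonal functionals -/
  coord : ℕ → X →L[𝕜] 𝕜
  biorthogonal : ∀ n j, coord n (vec j) = if n = j then 1 else 0
  dense_span : (Submodule.span 𝕜 (Set.range vec)).topologicalClosure = ⊤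
  separates : ∀ x : X, (∀ n, coord n x = 0) → x = 0
  bounded : ∃ C : ℝ, ∀ n, ‖vec n‖ ≤ C ∧ ‖coord n‖ ≤ C

/-- Property (A) (symmetry for largest coefficients). -/
def PropertyA {𝕜 X : Type} [RCLike 𝕜] [NormedAddCommGroup X] [NormedSpace 𝕜 X]
    (B : MBasis 𝕜 X) : Prop :=
  ∀ (x : X) (A A' : Finset ℕ) (ε η : ℕ → 𝕜),
    (∀ n, ‖B.coord n x‖ ≤ 1) → A.card = A'.card → Disjoint A A' →
    (∀ n ∈ A ∪ A', B.coord n x = 0) → (∀ n ∈ A, ‖ε n‖ = 1) → (∀ n ∈ A', ‖η n‖ = 1) →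
    ‖x + ∑ n ∈ A, ε n • B.vec n‖ = ‖x + ∑ n ∈ A', η n • B.vec n‖

/-- Unconditionality: the expansion of every vector converges unconditionally to the vector. -/
def IsUnconditional {𝕜 X : Type} [RCLike 𝕜] [NormedAddCommGroup X] [NormedSpace 𝕜 X]
    (B : MBasis 𝕜 X) : Prop :=
  ∀ x : X, HasSum (fun n => B.coord n x • B.vec n) x

/-- Schauder basis: the expansion of every vector, in the natural order, converges to it. -/
def IsSchauder {𝕜 X : Type} [RCLike 𝕜] [NormedAddCommGroup X] [NormedSpace 𝕜 X]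
    (B : MBasis 𝕜 X) : Prop :=
  ∀ x : X, Tendsto (fun N => ∑ n ∈ range N, B.coord n x • B.vec n) atTop (𝓝 x)

section construction

variable (𝕜 : Type) [RCLike 𝕜]

/-- the span of the basis vectors. -/
noncomputable abbrev Sp : Submodule 𝕜 (BoundedContinuousFunction (W 𝕜) 𝕜) := Submodule.span 𝕜 (Set.range (v 𝕜))

/-- the Banach space. -/
abbrev XX : Type := ↥(Sp 𝕜).topologicalClosure

variable {𝕜}

lemma T_mem_span (x : ℕ →₀ 𝕜) : T 𝕜 x ∈ Sp 𝕜 := by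
  unfold T Sp
  rw [← Finsupp.range_linearCombination]
  exact ⟨x, rfl⟩

lemma exists_T {z : BoundedContinuousFunction (W 𝕜) 𝕜} (hz : z ∈ Sp 𝕜) : ∃ x, T 𝕜 x = z := by
  unfold Sp at hz
  rw [← Finsupp.range_linearCombination] at hz
  exact hz

lemma T_eq_sum (x : ℕ →₀ 𝕜) {S : Finset ℕ} (hS : x.support ⊆ S) : T 𝕜 x = ∑ n ∈ S, x n • v 𝕜 n := by
  unfold T
  rw [Finsupp.linearCombination_apply, Finsupp.sum]
  apply sum_subset hS
  intro n _ hn
  rw [Finsupp.notMem_support_iff] at hn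
  simp [hn]

variable (𝕜) in
/-- index with set `{n}` and constant coefficient. -/
noncomputable def pt (n : ℕ) (c : 𝕜) (hc : ‖c‖ ≤ 1) : W 𝕜 := ({n}, ⟨fun _ => c, fun _ => hc⟩)

variable (𝕜) in
/-- coordinate functionals on the ambient space. -/
noncomputable def co (n : ℕ) : (BoundedContinuousFunction (W 𝕜) 𝕜) →L[𝕜] 𝕜 :=
  BoundedContinuousFunction.evalCLM 𝕜 (pt 𝕜 n 1 (by simp)) -
    BoundedContinuousFunction.evalCLM 𝕜 (pt 𝕜 n 0 (by simp))

lemma co_T (n : ℕ) (x : ℕ →₀ 𝕜) : co 𝕜 n (T 𝕜 x) = x n := by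
  unfold co
  rw [_root_.sub_apply]
  change T 𝕜 x (pt 𝕜 n 1 _) - T 𝕜 x (pt 𝕜 n 0 _) = x n
  rw [T_split, T_split]
  simp [pt]

lemma norm_co_le (n : ℕ) (z : BoundedContinuousFunction (W 𝕜) 𝕜) : ‖co 𝕜 n z‖ ≤ 2 * ‖z‖ := by
  unfold co
  rw [_root_.sub_apply]
  change ‖z (pt 𝕜 n 1 _) - z (pt 𝕜 n 0 _)‖ ≤ 2 * ‖z‖
  refine (norm_sub_le _ _).trans ?_
  have h1 := z.norm_coe_le_norm (pt 𝕜 n 1 (by simp))
  have h2 := z.norm_coe_le_norm (pt 𝕜 n 0 (by simp))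
  linarith

lemma norm_v_le (n : ℕ) : ‖v 𝕜 n‖ ≤ 1 := by
  rw [BoundedContinuousFunction.norm_le (by norm_num)]
  intro p
  rw [v_apply]
  exact norm_gg_le p n

lemma T_single (n : ℕ) : T 𝕜 (Finsupp.single n 1) = v 𝕜 n := by
  unfold T
  rw [Finsupp.linearCombination_single, one_smul]

variable (𝕜) in
/-- the basis vectors as elements of the space. -/
noncomputable def vec (n : ℕ) : XX 𝕜 :=
  ⟨v 𝕜 n, (Sp 𝕜).le_topologicalClosure (Submodule.subset_span ⟨n, rfl⟩)⟩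

variable (𝕜) in
/-- coordinates on the space. -/
noncomputable def coord (n : ℕ) : XX 𝕜 →L[𝕜] 𝕜 := (co 𝕜 n).comp (Submodule.subtypeL _)

/-- approximation by finite sums -/
lemma exists_approx (x : XX 𝕜) {δ : ℝ} (hδ : 0 < δ) : ∃ y : ℕ →₀ 𝕜, ‖(x : BoundedContinuousFunction (W 𝕜) 𝕜) - T 𝕜 y‖ < δ := by
  have hx : (x : BoundedContinuousFunction (W 𝕜) 𝕜) ∈ closure (Sp 𝕜 : Set _) := by
    rw [← Submodule.topologicalClosure_coe]
    exact x.2
  obtain ⟨z, hz, hd⟩ := Metric.mem_closure_iff.1 hx δ hδ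
  obtain ⟨y, rfl⟩ := exists_T hz
  exact ⟨y, by rwa [dist_eq_norm] at hd⟩

variable (𝕜) in
/-- partial sum operators on the ambient space -/
noncomputable def PN (E : Finset ℕ) : (BoundedContinuousFunction (W 𝕜) 𝕜) →L[𝕜] (BoundedContinuousFunction (W 𝕜) 𝕜) :=
  ∑ n ∈ E, (co 𝕜 n).smulRight (v 𝕜 n)

lemma PN_apply (E : Finset ℕ) (z : BoundedContinuousFunction (W 𝕜) 𝕜) : PN 𝕜 E z = ∑ n ∈ E, co 𝕜 n z • v 𝕜 n := by
  unfold PN
  rw [_root_.sum_apply]
  rfl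

lemma PN_T (E : Finset ℕ) (x : ℕ →₀ 𝕜) : PN 𝕜 E (T 𝕜 x) = T 𝕜 (x.filter (· ∈ E)) := by
  rw [PN_apply, T_eq_sum (x.filter (· ∈ E)) (S := E)]
  · apply sum_congr rfl
    intro n hn
    rw [co_T, Finsupp.filter_apply_pos _ _ hn]
  · intro n hn
    rw [Finsupp.support_filter, mem_filter] at hn
    exact hn.2

lemma norm_PN_range_le (N : ℕ) (x : XX 𝕜) : ‖PN 𝕜 (range N) (x : BoundedContinuousFunction (W 𝕜) 𝕜)‖ ≤
    5 * ‖(x : BoundedContinuousFunction (W 𝕜) 𝕜)‖ := by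
  have hx : (x : BoundedContinuousFunction (W 𝕜) 𝕜) ∈ closure (Sp 𝕜 : Set _) := by
    rw [← Submodule.topologicalClosure_coe]
    exact x.2
  have hcl : IsClosed {z : BoundedContinuousFunction (W 𝕜) 𝕜 | ‖PN 𝕜 (range N) z‖ ≤ 5 * ‖z‖} := by
    apply isClosed_le
    · exact (PN 𝕜 (range N)).continuous.norm
    · exact continuous_const.mul continuous_norm
  have hsub : (Sp 𝕜 : Set (BoundedContinuousFunction (W 𝕜) 𝕜)) ⊆
      {z : BoundedContinuousFunction (W 𝕜) 𝕜 | ‖PN 𝕜 (range N) z‖ ≤ 5 * ‖z‖} := by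
    intro z hz
    obtain ⟨y, rfl⟩ := exists_T hz
    rw [Set.mem_ofPred_eq, PN_T]
    have : y.filter (· ∈ range N) = y.filter (· < N) := by
      congr 1
      ext n
      simp
    rw [this]
    exact norm_T_filter_le y N
  exact closure_minimal hsub hcl hx

lemma coe_sum_vec (E : Finset ℕ) (c : ℕ → 𝕜) :
    ((∑ n ∈ E, c n • vec 𝕜 n : XX 𝕜) : BoundedContinuousFunction (W 𝕜) 𝕜) = ∑ n ∈ E, c n • v 𝕜 n := by
  rw [Submodule.coe_sum]
  rfl

lemma coe_PN (E : Finset ℕ) (x : XX 𝕜) :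
    ((∑ n ∈ E, coord 𝕜 n x • vec 𝕜 n : XX 𝕜) : BoundedContinuousFunction (W 𝕜) 𝕜) = PN 𝕜 E x := by
  rw [coe_sum_vec, PN_apply]
  rfl

lemma schauder (x : XX 𝕜) : Tendsto (fun N => ∑ n ∈ range N, coord 𝕜 n x • vec 𝕜 n) atTop (𝓝 x) := by
  rw [Metric.tendsto_atTop]
  intro δ hδ
  obtain ⟨y, hy⟩ := exists_approx x (δ := δ / 6) (by positivity)
  refine ⟨y.support.sup id + 1, fun N hN => ?_⟩
  rw [dist_eq_norm, Submodule.coe_norm, Submodule.coe_sub, coe_PN]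
  let y' : XX 𝕜 := ⟨T 𝕜 y, (Sp 𝕜).le_topologicalClosure (T_mem_span y)⟩
  have h1 : PN 𝕜 (range N) (T 𝕜 y) = T 𝕜 y := by
    rw [PN_T]
    congr 1
    rw [Finsupp.filter_eq_self_iff]
    intro n hn
    rw [mem_range]
    have : n ≤ y.support.sup id := Finset.le_sup (f := id) (Finsupp.mem_support_iff.2 hn)
    omega
  have h2 : PN 𝕜 (range N) (x : BoundedContinuousFunction (W 𝕜) 𝕜) - x =
      PN 𝕜 (range N) ((x - y' : XX 𝕜) : BoundedContinuousFunction (W 𝕜) 𝕜) - ((x : BoundedContinuousFunction (W 𝕜) 𝕜) - T 𝕜 y) := by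
    rw [Submodule.coe_sub, map_sub]
    change _ = PN 𝕜 (range N) (x : BoundedContinuousFunction (W 𝕜) 𝕜) - PN 𝕜 (range N) (T 𝕜 y) - _
    rw [h1]; abel
  rw [h2]
  have h3 := norm_PN_range_le N (x - y')
  have h4 : ‖((x - y' : XX 𝕜) : BoundedContinuousFunction (W 𝕜) 𝕜)‖ < δ / 6 := by
    rw [Submodule.coe_sub]; exact hy
  calc _ ≤ ‖PN 𝕜 (range N) ((x - y' : XX 𝕜) : BoundedContinuousFunction (W 𝕜) 𝕜)‖ +
        ‖(x : BoundedContinuousFunction (W 𝕜) 𝕜) - T 𝕜 y‖ := norm_sub_le _ _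
    _ < δ := by linarith

variable (𝕜) in
/-- the basis. -/
noncomputable def basis : MBasis 𝕜 (XX 𝕜) where
  vec := vec 𝕜
  coord := coord 𝕜
  biorthogonal n j := by
    change co 𝕜 n (v 𝕜 j) = _
    rw [← T_single, co_T, Finsupp.single_apply]
    simp only [eq_comm]
  dense_span := by
    rw [eq_top_iff]
    intro x _
    rw [← SetLike.mem_coe, Submodule.topologicalClosure_coe]
    refine mem_closure_of_tendsto (schauder x) (Eventually.of_forall fun N => ?_)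
    rw [SetLike.mem_coe]
    apply Submodule.sum_mem
    intro n _
    exact Submodule.smul_mem _ _ (Submodule.subset_span ⟨n, rfl⟩)
  separates x hx := by
    have h := schauder x
    have h0 : (fun N => ∑ n ∈ range N, coord 𝕜 n x • vec 𝕜 n) = fun _ => 0 := by
      funext N
      apply sum_eq_zero
      intro n _
      rw [hx n, zero_smul]
    rw [h0] at h
    exact (tendsto_nhds_unique h tendsto_const_nhds)
  bounded := by
    refine ⟨2, fun n => ⟨?_, ?_⟩⟩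
    · rw [Submodule.coe_norm]
      change ‖v 𝕜 n‖ ≤ 2
      exact (norm_v_le n).trans (by norm_num)
    · apply ContinuousLinearMap.opNorm_le_bound _ (by norm_num)
      intro x
      exact norm_co_le n _

lemma T_ind (A : Finset ℕ) (e : ℕ → 𝕜) : T 𝕜 (ind A e) = ∑ n ∈ A, e n • v 𝕜 n := by
  rw [T_eq_sum (S := A)]
  · apply sum_congr rfl
    intro n hn
    rw [ind_apply, if_pos hn]
  · intro n hn
    rw [Finsupp.mem_support_iff, ind_apply] at hn
    by_contra h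
    rw [if_neg h] at hn
    exact hn rfl

/-- approximation by finite sums with the constraints of Property (A). -/
lemma exists_approx_constr (x : XX 𝕜) (F : Finset ℕ) (hx : ∀ n, ‖coord 𝕜 n x‖ ≤ 1)
    (h0 : ∀ n ∈ F, coord 𝕜 n x = 0) {δ : ℝ} (hδ : 0 < δ) :
    ∃ y : ℕ →₀ 𝕜, (∀ n, ‖y n‖ ≤ 1) ∧ (∀ n ∈ F, y n = 0) ∧
      ‖(x : BoundedContinuousFunction (W 𝕜) 𝕜) - T 𝕜 y‖ ≤ δ := by
  set M : ℝ := 1 + 2 * (F.card : ℝ) with hM
  have hM1 : 1 ≤ M := by
    have : (0 : ℝ) ≤ (F.card : ℝ) := by positivity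
    linarith
  set K : ℝ := ‖(x : BoundedContinuousFunction (W 𝕜) 𝕜)‖ with hK
  have hK0 : 0 ≤ K := norm_nonneg _
  obtain ⟨τ, hτ0, hτ1, hτ2⟩ : ∃ τ : ℝ, 0 < τ ∧ τ ≤ 1 ∧ M * τ + 2 * τ * (K + M) ≤ δ := by
    have hden : 0 < M + 2 * (K + M) := by positivity
    refine ⟨min 1 (δ / (M + 2 * (K + M))), lt_min one_pos (by positivity), min_le_left _ _, ?_⟩
    have h1 : min 1 (δ / (M + 2 * (K + M))) ≤ δ / (M + 2 * (K + M)) := min_le_right _ _
    rw [le_div_iff₀ hden] at h1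
    linarith
  obtain ⟨y, hy⟩ := exists_approx x hτ0
  obtain ⟨y1, hy1⟩ : ∃ y1 : ℕ →₀ 𝕜, y1 = y.filter (fun n => ¬ n ∈ F) := ⟨_, rfl⟩
  obtain ⟨y3, hy3⟩ : ∃ y3 : ℕ →₀ 𝕜, y3 = y.filter (fun n => n ∈ F) := ⟨_, rfl⟩
  have hyy : y3 + y1 = y := by
    rw [hy1, hy3]
    exact Finsupp.filter_add_filter_not y _
  have hcoy : ∀ n, ‖coord 𝕜 n x - y n‖ ≤ 2 * τ := by
    intro n
    have h1 : coord 𝕜 n x - y n = co 𝕜 n ((x : BoundedContinuousFunction (W 𝕜) 𝕜) - T 𝕜 y) := by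
      rw [map_sub, co_T]; rfl
    rw [h1]
    refine (norm_co_le _ _).trans ?_
    linarith
  have hd1 : ‖(x : BoundedContinuousFunction (W 𝕜) 𝕜) - T 𝕜 y1‖ ≤ M * τ := by
    have h2 : T 𝕜 y3 = ∑ n ∈ F, y n • v 𝕜 n := by
      rw [T_eq_sum y3 (S := F)]
      · apply sum_congr rfl
        intro n hn
        rw [hy3, Finsupp.filter_apply_pos _ _ hn]
      · intro n hn
        rw [hy3, Finsupp.support_filter, mem_filter] at hn
        exact hn.2
    have h3 : ‖∑ n ∈ F, y n • v 𝕜 n‖ ≤ (F.card : ℝ) * (2 * τ) := by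
      calc ‖∑ n ∈ F, y n • v 𝕜 n‖ ≤ ∑ n ∈ F, 2 * τ := by
            apply norm_sum_le_of_le
            intro n hn
            rw [norm_smul]
            have h4 := hcoy n
            rw [h0 n hn, zero_sub, norm_neg] at h4
            calc ‖y n‖ * ‖v 𝕜 n‖ ≤ 2 * τ * 1 := by
                  gcongr
                  exact norm_v_le n
              _ = _ := mul_one _
        _ = _ := by rw [sum_const, nsmul_eq_mul]
    have h5 : (x : BoundedContinuousFunction (W 𝕜) 𝕜) - T 𝕜 y1 =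
        ((x : BoundedContinuousFunction (W 𝕜) 𝕜) - T 𝕜 y) + ∑ n ∈ F, y n • v 𝕜 n := by
      rw [← h2, ← hyy, map_add]
      abel
    rw [h5]
    refine (norm_add_le _ _).trans ?_
    rw [hM]
    linarith
  have hy1b : ∀ n, ‖y1 n‖ ≤ 1 + 2 * τ := by
    intro n
    by_cases hn : n ∈ F
    · rw [hy1, Finsupp.filter_apply, if_neg (not_not.2 hn), norm_zero]; positivity
    · rw [hy1, Finsupp.filter_apply, if_pos hn]
      have h4 := hcoy n
      have h5 : ‖y n‖ ≤ ‖coord 𝕜 n x‖ + ‖coord 𝕜 n x - y n‖ := by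
        have := norm_sub_le (coord 𝕜 n x) (coord 𝕜 n x - y n)
        rwa [sub_sub_cancel] at this
      linarith [hx n]
  have hs : (0 : ℝ) < 1 + 2 * τ := by positivity
  obtain ⟨s, hs0⟩ : ∃ s : ℝ, s = (1 + 2 * τ)⁻¹ := ⟨_, rfl⟩
  have hspos : 0 < s := by rw [hs0]; positivity
  have hs1 : s * (1 + 2 * τ) = 1 := by rw [hs0]; exact inv_mul_cancel₀ hs.ne'
  have hs2 : s ≤ 1 := by nlinarith
  refine ⟨(s : 𝕜) • y1, fun n => ?_, fun n hn => ?_, ?_⟩
  · rw [Finsupp.smul_apply, smul_eq_mul, norm_mul, RCLike.norm_ofReal, abs_of_pos hspos]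
    calc s * ‖y1 n‖ ≤ s * (1 + 2 * τ) := by
          gcongr
          exact hy1b n
      _ = 1 := hs1
  · rw [Finsupp.smul_apply, hy1, Finsupp.filter_apply_neg, smul_zero]
    exact fun h => h hn
  · have h3 : ‖T 𝕜 y1‖ ≤ K + M := by
      have h4 : ‖T 𝕜 y1‖ ≤ ‖(x : BoundedContinuousFunction (W 𝕜) 𝕜)‖ + ‖(x : BoundedContinuousFunction (W 𝕜) 𝕜) - T 𝕜 y1‖ := by
        have := norm_sub_le (x : BoundedContinuousFunction (W 𝕜) 𝕜) ((x : BoundedContinuousFunction (W 𝕜) 𝕜) - T 𝕜 y1)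
        rwa [sub_sub_cancel] at this
      have h5 : M * τ ≤ M * 1 := by gcongr
      linarith
    have h5 : T 𝕜 y1 - T 𝕜 ((s : 𝕜) • y1) = ((1 - s : ℝ) : 𝕜) • T 𝕜 y1 := by
      rw [map_smul, RCLike.ofReal_sub, sub_smul, RCLike.ofReal_one, one_smul]
    have h6 : ‖T 𝕜 y1 - T 𝕜 ((s : 𝕜) • y1)‖ ≤ 2 * τ * (K + M) := by
      rw [h5, norm_smul, RCLike.norm_ofReal, abs_of_nonneg (by linarith)]
      have h8 : 1 - s ≤ 2 * τ := by nlinarith
      gcongr
    calc ‖(x : BoundedContinuousFunction (W 𝕜) 𝕜) - T 𝕜 ((s : 𝕜) • y1)‖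
        = ‖((x : BoundedContinuousFunction (W 𝕜) 𝕜) - T 𝕜 y1) + (T 𝕜 y1 - T 𝕜 ((s : 𝕜) • y1))‖ := by
          rw [sub_add_sub_cancel]
      _ ≤ M * τ + 2 * τ * (K + M) := (norm_add_le _ _).trans (add_le_add hd1 h6)
      _ ≤ δ := hτ2

lemma ind_congr (A : Finset ℕ) (e e' : ℕ → 𝕜) (h : ∀ n ∈ A, e n = e' n) : ind A e = ind A e' := by
  unfold ind
  exact sum_congr rfl fun n hn => by rw [h n hn]

lemma exists_unimodular (A : Finset ℕ) (e : ℕ → 𝕜) (he : ∀ n ∈ A, ‖e n‖ = 1) :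
    ∃ e' : ℕ → 𝕜, (∀ n, ‖e' n‖ = 1) ∧ ind A e = ind A e' := by
  refine ⟨fun n => if n ∈ A then e n else 1, fun n => ?_, ind_congr _ _ _ fun n hn => ?_⟩
  · change ‖(if n ∈ A then e n else 1)‖ = 1
    by_cases h : n ∈ A
    · rw [if_pos h]; exact he n h
    · rw [if_neg h]; exact norm_one
  · exact (if_pos hn).symm

lemma propA_le (x : XX 𝕜) (A A' : Finset ℕ) (ε η : ℕ → 𝕜)
    (hx : ∀ n, ‖coord 𝕜 n x‖ ≤ 1) (hc : A.card = A'.card)
    (h0 : ∀ n ∈ A ∪ A', coord 𝕜 n x = 0) (he : ∀ n ∈ A, ‖ε n‖ = 1) (hη : ∀ n ∈ A', ‖η n‖ = 1) :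
    ‖x + ∑ n ∈ A, ε n • vec 𝕜 n‖ ≤ ‖x + ∑ n ∈ A', η n • vec 𝕜 n‖ := by
  rw [Submodule.coe_norm, Submodule.coe_norm, Submodule.coe_add, Submodule.coe_add, coe_sum_vec,
    coe_sum_vec, ← T_ind, ← T_ind]
  obtain ⟨ε', u1, e1⟩ := exists_unimodular A ε he
  obtain ⟨η', u2, e2⟩ := exists_unimodular A' η hη
  rw [e1, e2]
  apply le_of_forall_pos_le_add
  intro δ hδ
  obtain ⟨y, hy1, hy0, hyd⟩ := exists_approx_constr x (A ∪ A') hx h0 (δ := δ / 2) (by positivity)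
  have key := norm_T_le_of_move y A A' ε' η' u1 u2 hy1 hc
    (fun n hn => hy0 n (mem_union_left _ hn)) (fun n hn => hy0 n (mem_union_right _ hn))
  rw [map_add, map_add] at key
  obtain ⟨p, hp⟩ : ∃ p, p = T 𝕜 (ind A ε') := ⟨_, rfl⟩
  obtain ⟨q, hq⟩ : ∃ q, q = T 𝕜 (ind A' η') := ⟨_, rfl⟩
  obtain ⟨z, hz⟩ : ∃ z, z = (x : BoundedContinuousFunction (W 𝕜) 𝕜) := ⟨_, rfl⟩
  obtain ⟨u, hu⟩ : ∃ u, u = T 𝕜 y := ⟨_, rfl⟩
  rw [← hp, ← hq, ← hu] at key
  rw [← hz, ← hu] at hyd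
  rw [← hp, ← hq, ← hz]
  have l1 : ‖z + p‖ ≤ ‖u + p‖ + δ / 2 := by
    have e : z + p = (u + p) + (z - u) := by abel
    rw [e]
    exact (norm_add_le _ _).trans (by linarith)
  have l2 : ‖u + q‖ ≤ ‖z + q‖ + δ / 2 := by
    have e : u + q = (z + q) - (z - u) := by abel
    rw [e]
    exact (norm_sub_le _ _).trans (by linarith)
  linarith

lemma propA : PropertyA (basis 𝕜) := by
  intro x A A' ε η hx hc _ h0 he hη
  apply le_antisymm
  · exact propA_le x A A' ε η hx hc h0 he hη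
  · exact propA_le x A' A η ε hx hc.symm (fun n hn => h0 n (by rwa [union_comm])) hη he

lemma not_unconditional : ¬ IsUnconditional (basis 𝕜) := by
  intro h
  let Q : Finset ℕ → (XX 𝕜 →L[𝕜] XX 𝕜) := fun E => ∑ n ∈ E, (coord 𝕜 n).smulRight (vec 𝕜 n)
  have hQ : ∀ E x, Q E x = ∑ n ∈ E, coord 𝕜 n x • vec 𝕜 n := by
    intro E x
    simp only [Q]
    rw [_root_.sum_apply]
    rfl
  obtain ⟨C, hC⟩ := banach_steinhaus (g := Q) (fun x => by
    have hs : Summable (fun n => coord 𝕜 n x • vec 𝕜 n) := (h x).summable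
    obtain ⟨s, hs⟩ := summable_iff_vanishing_norm.1 hs 1 one_pos
    refine ⟨∑ n ∈ s, ‖coord 𝕜 n x • vec 𝕜 n‖ + 1, fun E => ?_⟩
    rw [hQ, ← sum_inter_add_sum_sdiff E s]
    refine (norm_add_le _ _).trans ?_
    have h1 : ‖∑ n ∈ E ∩ s, coord 𝕜 n x • vec 𝕜 n‖ ≤ ∑ n ∈ s, ‖coord 𝕜 n x • vec 𝕜 n‖ := by
      refine (norm_sum_le _ _).trans ?_
      exact sum_le_sum_of_subset_of_nonneg inter_subset_right (fun _ _ _ => norm_nonneg _)
    have h2 := hs (E \ s) sdiff_disjoint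
    linarith)
  have hC0 : 0 ≤ C := (norm_nonneg _).trans (hC ∅)
  obtain ⟨m, hm⟩ := exists_nat_gt (64 * (C * 13))
  set E : Finset ℕ := (range (16 ^ (2 * m))).filter (fun n => Even (Nat.log 16 n)) with hE
  let x : XX 𝕜 := ⟨T 𝕜 (xp 𝕜 (2 * m)), (Sp 𝕜).le_topologicalClosure (T_mem_span _)⟩
  have h1 : ((Q E x : XX 𝕜) : BoundedContinuousFunction (W 𝕜) 𝕜) = T 𝕜 (xe 𝕜 (2 * m)) := by
    rw [hQ, coe_PN]
    change PN 𝕜 E (T 𝕜 (xp 𝕜 (2 * m))) = _
    rw [PN_T]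
    congr 1
    ext n
    rw [Finsupp.filter_apply, xp_apply, xe, ind_apply]
    by_cases hn : n ∈ E
    · rw [if_pos hn, if_pos (by rw [hE] at hn; exact (mem_filter.1 hn).1), if_pos hn]
    · rw [if_neg hn, if_neg hn]
  have h2 : ‖Q E x‖ ≤ C * 13 := by
    calc ‖Q E x‖ ≤ ‖Q E‖ * ‖x‖ := ContinuousLinearMap.le_opNorm _ _
      _ ≤ C * 13 := by
        gcongr
        · exact hC E
        · exact norm_T_xp_le (2 * m)
  rw [Submodule.coe_norm, h1] at h2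
  have h3 := norm_T_xe_ge (𝕜 := 𝕜) m
  linarith

end construction

/-- Property (A) does not imply unconditionality, even for Schauder bases: over `𝕜 = ℝ` or `ℂ`
there is a Banach space with a semi-normalized Markushevich basis that is a Schauder basis, has
Property (A) and is not unconditional. -/
theorem result (𝕜 : Type) [RCLike 𝕜] :
    ∃ (X : Type) (_ : NormedAddCommGroup X) (_ : NormedSpace 𝕜 X) (_ : CompleteSpace X)
      (B : MBasis 𝕜 X), PropertyA B ∧ IsSchauder B ∧ ¬ IsUnconditional B :=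
  ⟨XX 𝕜, inferInstance, inferInstance, inferInstance, basis 𝕜, propA, schauder,
    not_unconditional⟩

end Pool.Agent.Results.MP_e9a5f2_an.ConditionalPropertyA
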